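import Pool.Agent.H482R3.EB.Stm

/-!
# Combination theorem for Artin groups: admissibility of `bl` syllables is computable
-/

set_option autoImplicit false

namespace Pool.Agent.H325R.EB

open Pool.Agent.H482R3.EA (W inv ev cV cW iW iV Syl)
open Pool.Agent.H482R3.EB

theorem ADM2_comp {α β : Type} [Primcodable α] [Primcodable β] {p : β → Prop} {f : α → β}
    (hp : ComputablePred p) (hf : Computable f) : ComputablePred (fun x => p (f x)) := by
  obtain ⟨g, hg, rfl⟩ := ComputablePred.computable_iff.1 hp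
  exact ComputablePred.computable_iff.2 ⟨fun x => g (f x), hg.comp hf, rfl⟩

/-- bounded search for an integer -/
theorem ADM2_int (hS : Pool.Agent.H482R3.EA.S_BS) {α : Type} [Primcodable α]
    (p : α × (ℕ × ℕ) → Prop) (B : α → ℕ) (hp : ComputablePred p) (hB : Computable B) :
    ComputablePred (fun x => ∃ n, n ≤ B x ∧ ∃ m, m ≤ B x ∧ p (x, (n, m))) := by
  have h1 : ComputablePred (fun y : (α × ℕ) × ℕ => p (y.1.1, (y.1.2, y.2))) :=
    ADM2_comp hp ((Computable.fst.comp Computable.fst).pair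
      ((Computable.snd.comp Computable.fst).pair Computable.snd))
  have h2 : ComputablePred (fun y : α × ℕ => ∃ m, m ≤ B y.1 ∧ p (y.1, (y.2, m))) :=
    hS (α × ℕ) inferInstance (fun y : (α × ℕ) × ℕ => p (y.1.1, (y.1.2, y.2)))
      (fun y => B y.1) h1 (hB.comp Computable.fst)
  exact hS α inferInstance (fun y : α × ℕ => ∃ m, m ≤ B y.1 ∧ p (y.1, (y.2, m))) B h2 hB

/-- an integer of absolute value at most `n` is a difference of two naturals at most `n` -/
theorem ADM2_split (z : ℤ) (n : ℕ) (h : |z| ≤ (n : ℤ)) :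
    ∃ p, p ≤ n ∧ ∃ q, q ≤ n ∧ (p : ℤ) - (q : ℤ) = z := by
  rw [abs_le] at h
  exact ⟨z.toNat, by omega, (-z).toNat, by omega, by omega⟩

theorem ADM2_append {α β : Type} [Primcodable α] [Primcodable β] {f g : α → List β}
    (hf : Computable f) (hg : Computable g) : Computable (fun x => f x ++ g x) :=
  Primrec.list_append.to_comp.comp hf hg

/-- the data -/
abbrev ADM2X (a b : ℕ) : Type := Option (Syl (Fin a) (Fin b)) × (W (Fin b) × W (Fin a))

theorem t_ADM2 (hB : S_BASB) (hP : Pool.Agent.H482R3.EA.S_CP) (hN : S_NEARB) (hI : S_INDB)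
    (hS : Pool.Agent.H482R3.EA.S_BS) (hD : S_VBD) : S_ADM2 := by
  intro a b c hT hV hW
  -- words
  have hwp : ∀ v : Fin a, Computable (fun z : ℕ × ℕ => wp v ((z.1 : ℤ) - (z.2 : ℤ))) := by
    intro v
    have h1 : Computable (fun z : ℕ × ℕ => (v, z)) := (Computable.const v).pair Computable.id
    have h2 := Computable.comp (hB a).2.1 h1
    exact h2
  -- the state predicates
  have q1 : ComputablePred (fun p : ADM2X a b => InDB c p.2.1 p.1) :=
    ADM2_comp (f := fun p : ADM2X a b => (p.2.1, p.1)) (hI a b c hW).1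
      ((Computable.fst.comp Computable.snd).pair Computable.fst)
  have q2 : ∀ v : Fin a, ComputablePred (fun p : ADM2X a b => NearW c p.2.1 v p.1) := fun v =>
    ADM2_comp (f := fun p : ADM2X a b => ((p.2.1, v), p.1)) (hN a b c hW)
      (((Computable.fst.comp Computable.snd).pair (Computable.const v)).pair Computable.fst)
  have hy : Computable (fun p : ADM2X a b => p.2.2) := Computable.snd.comp Computable.snd
  have hlen : Computable (fun p : ADM2X a b => p.2.2.length) :=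
    Primrec.list_length.to_comp.comp hy
  -- one exponent
  have q3 : ∀ v : Fin a, ComputablePred (fun p : ADM2X a b => ∃ z : ℤ, TR (cV c) (p.2.2 ++ wp v z)) := by
    intro v
    have h1 : ComputablePred (fun x : ADM2X a b × (ℕ × ℕ) =>
        TR (cV c) (x.1.2.2 ++ wp v ((x.2.1 : ℤ) - (x.2.2 : ℤ)))) :=
      ADM2_comp (f := fun x : ADM2X a b × (ℕ × ℕ) => x.1.2.2 ++ wp v ((x.2.1 : ℤ) - (x.2.2 : ℤ))) hV
        (ADM2_append (hy.comp Computable.fst) ((hwp v).comp Computable.snd))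
    refine (ADM2_int hS (fun x : ADM2X a b × (ℕ × ℕ) =>
        TR (cV c) (x.1.2.2 ++ wp v ((x.2.1 : ℤ) - (x.2.2 : ℤ))))
      (fun p : ADM2X a b => p.2.2.length) h1 hlen).of_eq fun p => ?_
    constructor
    · rintro ⟨n, -, m, -, h⟩
      exact ⟨_, h⟩
    · rintro ⟨z, h⟩
      obtain ⟨n, hn, m, hm, hz⟩ := ADM2_split z _ ((hD (Fin a) (cV c) hT p.2.2).1 v z h)
      exact ⟨n, hn, m, hm, by simp only [hz]; exact h⟩
  -- two exponents
  have q4 : ∀ v v' : Fin a, ComputablePred (fun p : ADM2X a b => ∃ z z' : ℤ,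
      TR (cV c) (wp v z ++ p.2.2 ++ wp v' z')) := by
    intro v v'
    have h1 : ComputablePred (fun x : (ADM2X a b × (ℕ × ℕ)) × (ℕ × ℕ) =>
        TR (cV c) (wp v ((x.1.2.1 : ℤ) - (x.1.2.2 : ℤ)) ++ x.1.1.2.2 ++
          wp v' ((x.2.1 : ℤ) - (x.2.2 : ℤ)))) :=
      ADM2_comp (f := fun x : (ADM2X a b × (ℕ × ℕ)) × (ℕ × ℕ) =>
        wp v ((x.1.2.1 : ℤ) - (x.1.2.2 : ℤ)) ++ x.1.1.2.2 ++
          wp v' ((x.2.1 : ℤ) - (x.2.2 : ℤ))) hV (ADM2_append (ADM2_append ((hwp v).comp (Computable.snd.comp Computable.fst))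
        (hy.comp (Computable.fst.comp Computable.fst))) ((hwp v').comp Computable.snd))
    have h2 := ADM2_int hS (fun x : (ADM2X a b × (ℕ × ℕ)) × (ℕ × ℕ) =>
        TR (cV c) (wp v ((x.1.2.1 : ℤ) - (x.1.2.2 : ℤ)) ++ x.1.1.2.2 ++
          wp v' ((x.2.1 : ℤ) - (x.2.2 : ℤ)))) (fun x : ADM2X a b × (ℕ × ℕ) => x.1.2.2.length) h1
      (hlen.comp Computable.fst)
    refine (ADM2_int hS (fun x : ADM2X a b × (ℕ × ℕ) => ∃ n, n ≤ x.1.2.2.length ∧
      ∃ m, m ≤ x.1.2.2.length ∧ TR (cV c) (wp v ((x.2.1 : ℤ) - (x.2.2 : ℤ)) ++ x.1.2.2 ++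
          wp v' ((n : ℤ) - (m : ℤ)))) (fun p : ADM2X a b => p.2.2.length) h2 hlen).of_eq fun p => ?_
    constructor
    · rintro ⟨n, -, m, -, n', -, m', -, h⟩
      exact ⟨_, _, h⟩
    · rintro ⟨z, z', h⟩
      obtain ⟨z1, z1', e1, e2, e3⟩ := (hD (Fin a) (cV c) hT p.2.2).2 v v' z z' h
      obtain ⟨n, hn, m, hm, hz⟩ := ADM2_split z1 _ e1
      obtain ⟨n', hn', m', hm', hz'⟩ := ADM2_split z1' _ e2
      exact ⟨n, hn, m, hm, n', hn', m', hm', by simp only [hz, hz']; exact e3⟩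
  -- assembly
  have hand := (hP (ADM2X a b) inferInstance a).1
  have hor := (hP (ADM2X a b) inferInstance a).2.1
  have hall := (hP (ADM2X a b) inferInstance a).2.2.1
  have hex := (hP (ADM2X a b) inferInstance a).2.2.2
  have r1 : ComputablePred (fun p : ADM2X a b => (∀ v, ¬ NearW c p.2.1 v p.1) ∧
      ∀ v, ¬ ∃ z : ℤ, TR (cV c) (p.2.2 ++ wp v z)) :=
    hand _ _ (hall _ fun v => (q2 v).not) (hall _ fun v => (q3 v).not)
  have r2 : ComputablePred (fun p : ADM2X a b => ∃ v, NearW c p.2.1 v p.1 ∧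
      ∀ v', ¬ ∃ z z' : ℤ, TR (cV c) (wp v z ++ p.2.2 ++ wp v' z')) :=
    hex _ fun v => hand _ _ (q2 v) (hall _ fun v' => (q4 v v').not)
  refine (hand _ _ q1.not (hor _ _ r1 r2)).of_eq fun p => ?_
  obtain ⟨s, g, y⟩ := p
  simp only [AdmW, not_exists]

end Pool.Agent.H325R.EB
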