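import Pool.Agent.H482R3.EB.Stm

/-!
# Combination theorem for Artin groups: the final statement
-/

set_option autoImplicit false

namespace Pool.Agent.H325R.EB

open Pool.Agent.H482R3.EA (W inv ev cV cW iW iV)
open Pool.Agent.H482R3.EB

theorem FINALB_comp {α β : Type} [Primcodable α] [Primcodable β] {p : β → Prop} {f : α → β}
    (hp : ComputablePred p) (hf : Computable f) : ComputablePred (fun x => p (f x)) := by
  obtain ⟨g, hg, rfl⟩ := ComputablePred.computable_iff.1 hp
  exact ComputablePred.computable_iff.2 ⟨fun x => g (f x), hg.comp hf, rfl⟩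

/-- substitution of letters is computable -/
theorem FINALB_map {α β : Type} [Primcodable α] [Primcodable β] [Finite α] (f : α → β) :
    Computable (fun u : W α => (u.map (fun x => (f x.1, x.2)) : W β)) := by
  have h1 : Primrec (fun x : α × Bool => ((f x.1, x.2) : β × Bool)) :=
    Primrec.pair ((Primrec.dom_finite f).comp Primrec.fst) Primrec.snd
  have h2 : Primrec (fun u : List (α × Bool) => u.map (fun x => ((f x.1, x.2) : β × Bool))) :=
    Primrec.list_map Primrec.id (h1.comp Primrec.snd).to₂
  exact h2.to_comp

theorem t_FINALB (hS : S_STEPB) (hT : S_TAME) (hA : S_ARTR) (hR : S_RENUM) (hJ : S_RETJ) :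
    S_FINALB := by
  intro n M a b e hcross hV hW
  have hsym : ∀ i j, M i j = M j i := M.symmetric
  -- translation of the hypotheses
  have hV' : ComputablePred (TR (cV (jn (fun i j => M i j) e))) := by
    refine ComputablePred.of_eq hV fun u => ?_
    exact hA a (fun i j : Fin a => M (e (.inl i)) (e (.inl j))) (fun i => M.diagonal _)
      (fun i j => hsym _ _) u
  have hW' : ComputablePred (TR (cW (jn (fun i j => M i j) e))) := by
    refine ComputablePred.of_eq hW fun u => ?_
    exact hA b (fun i j : Fin b => M (e (.inr i)) (e (.inr j))) (fun i => M.diagonal _)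
      (fun i j => hsym _ _) u
  -- the joined group
  have hmain : ComputablePred (TJ (jn (fun i j => M i j) e)) := by
    rcases Nat.eq_zero_or_pos a with ha | ha
    · subst ha
      have hconv : ∀ u : W (Fin 0 ⊕ Fin b),
          iW (u.map (fun x => (Sum.elim (fun i : Fin 0 => i.elim0) id x.1, x.2))) = u := by
        intro u
        unfold iW
        rw [List.map_map]
        conv_rhs => rw [← List.map_id u]
        refine List.map_congr_left fun x _ => ?_
        obtain ⟨x1, x2⟩ := x
        rcases x1 with i | i
        · exact i.elim0
        · rfl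
      refine ComputablePred.of_eq (FINALB_comp hW'
        (FINALB_map (Sum.elim (fun i : Fin 0 => i.elim0) id : Fin 0 ⊕ Fin b → Fin b)))
        fun u => ?_
      rw [(hJ (Fin 0) (Fin b) (jn (fun i j => M i j) e)).1, hconv]
    · refine hS a b _ ha ?_ ?_ ?_ hV' hW'
      · intro v w
        have h1 := hcross v w
        show M (e (.inl v)) (e (.inr w)) / 2 ≠ 1
        intro h2
        obtain ⟨k, hk⟩ := h1.1
        have h3 := h1.2
        omega
      · refine hT (Fin a) _ (fun s t => hsym _ _) fun s t hst => ?_
        exact M.off_diagonal _ _ fun h => hst (Sum.inl_injective (e.injective h))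
      · refine hT (Fin b) _ (fun s t => hsym _ _) fun s t hst => ?_
        exact M.off_diagonal _ _ fun h => hst (Sum.inr_injective (e.injective h))
  have hTR : ComputablePred (TR (fun i j => M i j)) := by
    refine ComputablePred.of_eq (FINALB_comp hmain (FINALB_map e.symm)) fun u => ?_
    exact (hR a b n (fun i j => M i j) e (fun i j => hsym _ _) (fun i j => (hcross i j).1) u).symm
  refine ComputablePred.of_eq hTR fun u => ?_
  exact (hA n (fun i j => M i j) (fun i => M.diagonal _) (fun i j => hsym _ _) u).symm

end Pool.Agent.H325R.EB
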