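import Pool.Agent.H482R3.EB.Stm

/-!
# The word problem of a finitely presented group is recursively enumerable
-/

set_option autoImplicit false

namespace Pool.Agent.H325R.EB

open Pool.Agent.H482R3.EA (W inv ev)
open Pool.Agent.H482R3.EB

/-- the word of one conjugated relator -/
def FPRE_c {α : Type} (R : List (W α)) (t : W α × (ℕ × Bool)) : W α :=
  t.1 ++ (bif t.2.2 then R.getD t.2.1 [] else inv (R.getD t.2.1 [])) ++ inv t.1

/-- the word of a list of conjugated relators -/
def FPRE_w {α : Type} (R : List (W α)) (L : List (W α × (ℕ × Bool))) : W α :=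
  L.flatMap (FPRE_c R)

theorem FPRE_ev_append {S G : Type} [Group G] (f : S → G) (u v : W S) :
    ev f (u ++ v) = ev f u * ev f v := by
  unfold ev
  rw [List.map_append, List.prod_append]

theorem FPRE_ev_inv {S G : Type} [Group G] (f : S → G) (u : W S) :
    ev f (inv u) = (ev f u)⁻¹ := by
  induction u with
  | nil => simp [inv, ev]
  | cons a u ih =>
    have h1 : inv (a :: u) = inv u ++ [(a.1, !a.2)] := by simp [inv]
    have h2 : a :: u = [a] ++ u := rfl
    rw [h1, h2, FPRE_ev_append, FPRE_ev_append, ih, mul_inv_rev]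
    congr 1
    obtain ⟨s, b⟩ := a
    cases b <;> simp [ev]

theorem FPRE_ev_mk {α : Type} (u : W α) :
    ev (FreeGroup.of : α → FreeGroup α) u = FreeGroup.mk u := by
  induction u with
  | nil => simp [ev, FreeGroup.one_eq_mk]
  | cons a u ih =>
    have h2 : a :: u = [a] ++ u := rfl
    rw [h2, FPRE_ev_append, ih, ← FreeGroup.mul_mk]
    congr 1
    obtain ⟨s, b⟩ := a
    cases b
    · simp [ev, FreeGroup.of, FreeGroup.inv_mk, FreeGroup.invRev]
    · simp [ev, FreeGroup.of]

theorem FPRE_ev_pres {α : Type} (rels : Set (FreeGroup α)) (u : W α) :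
    ev (PresentedGroup.of : α → PresentedGroup rels) u =
      PresentedGroup.mk rels (ev (FreeGroup.of : α → FreeGroup α) u) := by
  induction u with
  | nil => simp [ev]
  | cons a u ih =>
    have h2 : a :: u = [a] ++ u := rfl
    rw [h2, FPRE_ev_append, FPRE_ev_append, ih, map_mul]
    congr 1
    obtain ⟨s, b⟩ := a
    cases b <;> simp [ev, PresentedGroup.of]

theorem FPRE_w_append {α : Type} (R : List (W α)) (L L' : List (W α × (ℕ × Bool))) :
    FPRE_w R (L ++ L') = FPRE_w R L ++ FPRE_w R L' := by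
  unfold FPRE_w
  rw [List.flatMap_append]

theorem FPRE_w_single {α : Type} (R : List (W α)) (t : W α × (ℕ × Bool)) :
    FPRE_w R [t] = FPRE_c R t := by
  simp [FPRE_w]

theorem FPRE_flip {α G : Type} [Group G] (f : α → G) (R : List (W α))
    (t : W α × (ℕ × Bool)) :
    ev f (FPRE_c R (t.1, (t.2.1, !t.2.2))) = (ev f (FPRE_c R t))⁻¹ := by
  obtain ⟨z, i, b⟩ := t
  cases b <;> simp [FPRE_c, FPRE_ev_append, FPRE_ev_inv, mul_assoc]

theorem FPRE_w_inv {α G : Type} [Group G] (f : α → G) (R : List (W α))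
    (L : List (W α × (ℕ × Bool))) :
    ∃ L', ev f (FPRE_w R L') = (ev f (FPRE_w R L))⁻¹ := by
  induction L with
  | nil => exact ⟨[], by simp [FPRE_w, ev]⟩
  | cons t L ih =>
    obtain ⟨L', hL'⟩ := ih
    refine ⟨L' ++ [(t.1, (t.2.1, !t.2.2))], ?_⟩
    have h2 : t :: L = [t] ++ L := rfl
    rw [h2, FPRE_w_append, FPRE_w_append, FPRE_ev_append, FPRE_ev_append, hL', FPRE_w_single,
      FPRE_w_single, FPRE_flip, mul_inv_rev]

theorem FPRE_mem {α : Type} (R : List (W α)) (L : List (W α × (ℕ × Bool))) :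
    ev (FreeGroup.of : α → FreeGroup α) (FPRE_w R L) ∈
      Subgroup.normalClosure {r : FreeGroup α | ∃ z ∈ R, r = FreeGroup.mk z} := by
  induction L with
  | nil => simp [FPRE_w, ev]
  | cons t L ih =>
    have h2 : t :: L = [t] ++ L := rfl
    rw [h2, FPRE_w_append, FPRE_ev_append, FPRE_w_single]
    refine mul_mem ?_ ih
    have h3 : ev (FreeGroup.of : α → FreeGroup α) (R.getD t.2.1 []) ∈
        Subgroup.normalClosure {r : FreeGroup α | ∃ z ∈ R, r = FreeGroup.mk z} := by
      by_cases hi : t.2.1 < R.length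
      · rw [List.getD_eq_getElem _ _ hi, FPRE_ev_mk]
        exact Subgroup.subset_normalClosure ⟨_, List.getElem_mem hi, rfl⟩
      · rw [List.getD_eq_default _ _ (not_lt.1 hi)]
        simp [ev]
    unfold FPRE_c
    rw [FPRE_ev_append, FPRE_ev_append, FPRE_ev_inv]
    refine Subgroup.normalClosure_normal.conj_mem _ ?_ _
    cases t.2.2
    · simp only [cond_false, FPRE_ev_inv]
      exact inv_mem h3
    · simpa only [cond_true] using h3

theorem FPRE_surj {α : Type} [DecidableEq α] (R : List (W α)) (x : FreeGroup α)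
    (hx : x ∈ Subgroup.normalClosure {r : FreeGroup α | ∃ z ∈ R, r = FreeGroup.mk z}) :
    ∃ L, ev (FreeGroup.of : α → FreeGroup α) (FPRE_w R L) = x := by
  unfold Subgroup.normalClosure at hx
  induction hx using Subgroup.closure_induction with
  | mem x hx =>
    obtain ⟨a, ⟨z, hz, rfl⟩, hconj⟩ := Group.mem_conjugatesOfSet_iff.1 hx
    obtain ⟨g, hg⟩ := isConj_iff.1 hconj
    obtain ⟨i, hi, rfl⟩ := List.getElem_of_mem hz
    refine ⟨[(g.toWord, (i, true))], ?_⟩
    rw [FPRE_w_single]
    unfold FPRE_c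
    simp only [cond_true]
    rw [FPRE_ev_append, FPRE_ev_append, FPRE_ev_inv, List.getD_eq_getElem _ _ hi, FPRE_ev_mk,
      FPRE_ev_mk, FreeGroup.mk_toWord]
    exact hg
  | one => exact ⟨[], by simp [FPRE_w, ev]⟩
  | mul x y _ _ hx hy =>
    obtain ⟨L, rfl⟩ := hx
    obtain ⟨L', rfl⟩ := hy
    exact ⟨L ++ L', by rw [FPRE_w_append, FPRE_ev_append]⟩
  | inv x _ hx =>
    obtain ⟨L, rfl⟩ := hx
    exact FPRE_w_inv _ _ _

theorem FPRE_inv_prim {α : Type} [Primcodable α] : Primrec (fun u : W α => inv u) := by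
  unfold inv
  refine Primrec.list_reverse.comp (Primrec.list_map Primrec.id ?_)
  exact ((Primrec.fst.comp Primrec.snd).pair (Primrec.not.comp (Primrec.snd.comp Primrec.snd))).to₂

theorem FPRE_c_prim {α : Type} [Primcodable α] (R : List (W α)) : Primrec (FPRE_c R) := by
  have hg : Primrec (fun t : W α × (ℕ × Bool) => R.getD t.2.1 []) :=
    (Primrec.list_getD ([] : W α)).comp (Primrec.const R) (Primrec.fst.comp Primrec.snd)
  have hc : Primrec (fun t : W α × (ℕ × Bool) =>
      (bif t.2.2 then R.getD t.2.1 [] else inv (R.getD t.2.1 []))) :=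
    Primrec.cond (Primrec.snd.comp Primrec.snd) hg (FPRE_inv_prim.comp hg)
  exact Primrec.list_append.comp (Primrec.list_append.comp Primrec.fst hc)
    (FPRE_inv_prim.comp Primrec.fst)

theorem t_FPRE (hF : Pool.Agent.H482R3.EA.S_FW) (hE : Pool.Agent.H482R3.EA.S_REX) : S_FPRE := by
  intro α _ _ R
  have h1 : Primrec (fun x : W α × List (W α × (ℕ × Bool)) => x.1 ++ FPRE_w R x.2) := by
    have h2 : Primrec (fun x : W α × List (W α × (ℕ × Bool)) => FPRE_w R x.2) := by
      unfold FPRE_w
      exact Primrec.list_flatMap Primrec.snd ((FPRE_c_prim R).comp Primrec.snd).to₂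
    exact Primrec.list_append.comp Primrec.fst h2
  have h3 : ComputablePred (fun x : W α × List (W α × (ℕ × Bool)) =>
      ev (FreeGroup.of : α → FreeGroup α) (x.1 ++ FPRE_w R x.2) = 1) := by
    obtain ⟨g, hg, hgp⟩ := ComputablePred.computable_iff.1 (hF α inferInstance inferInstance)
    refine ComputablePred.computable_iff.2 ⟨fun x => g (x.1 ++ FPRE_w R x.2),
      hg.comp h1.to_comp, ?_⟩
    funext x
    exact congrFun hgp (x.1 ++ FPRE_w R x.2)
  have h4 := hE (W α) (List (W α × (ℕ × Bool))) inferInstance inferInstance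
    (fun x : W α × List (W α × (ℕ × Bool)) =>
      ev (FreeGroup.of : α → FreeGroup α) (x.1 ++ FPRE_w R x.2) = 1) h3.to_re
  refine h4.of_eq fun u => ?_
  rw [FPRE_ev_pres, PresentedGroup.mk_eq_one_iff]
  constructor
  · rintro ⟨L, hL⟩
    simp only [FPRE_ev_append] at hL
    rw [eq_inv_of_mul_eq_one_left hL]
    exact inv_mem (FPRE_mem R L)
  · intro hu
    obtain ⟨L, hL⟩ := FPRE_surj R _ (inv_mem hu)
    refine ⟨L, ?_⟩
    simp only [FPRE_ev_append]
    rw [hL, mul_inv_cancel]

end Pool.Agent.H325R.EB
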